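import Pool.Agent.Helper57.KE.St

/-!
# Project KE, module CMB: Cauchy-Schwarz, the power bound from the two square sums
-/

set_option autoImplicit false

open scoped BigOperators
open Finset

namespace Pool.Agent.Helper71.KE

open Pool.Agent.Helper57.KE Pool.Agent.Helper57.KR Pool.Agent.Helper65.RG

universe u

private theorem key_CMB {H : Type u} [NormedAddCommGroup H] [InnerProductSpace ℂ H]
    [CompleteSpace H] (T : H →L[ℂ] H) (x : H) (n k : ℕ) (hk : k ≤ n) :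
    ‖(T ^ n) x‖ ^ 2 ≤ ‖((star T) ^ (n - k)) ((T ^ n) x)‖ * ‖(T ^ k) x‖ := by
  obtain ⟨y, hy⟩ : ∃ y, y = (T ^ n) x := ⟨_, rfl⟩
  have e1 : (T ^ n) x = (T ^ (n - k)) ((T ^ k) x) := by
    rw [← ContinuousLinearMap.mul_apply, ← pow_add, Nat.sub_add_cancel hk]
  have e2 : inner ℂ y ((T ^ (n - k)) ((T ^ k) x)) =
      inner ℂ (((star T) ^ (n - k)) y) ((T ^ k) x) := by
    rw [← star_pow, ContinuousLinearMap.star_eq_adjoint, ContinuousLinearMap.adjoint_inner_left]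
  have e3 : ‖y‖ ^ 2 = ‖(inner ℂ y y : ℂ)‖ := by
    rw [inner_self_eq_norm_sq_to_K]
    simp
  rw [← hy]
  calc ‖y‖ ^ 2 = ‖(inner ℂ y y : ℂ)‖ := e3
    _ = ‖(inner ℂ y ((T ^ (n - k)) ((T ^ k) x)) : ℂ)‖ := by rw [← e1, ← hy]
    _ = ‖(inner ℂ (((star T) ^ (n - k)) y) ((T ^ k) x) : ℂ)‖ := by rw [e2]
    _ ≤ _ := norm_inner_le_norm _ _

/-- Module CMB. -/
theorem hCMB : StCMB.{u} := by
  intro H _ _ _ T K γ' hK h1 h2 n
  have hn : (0 : ℝ) < 1 + (n : ℝ) := by positivity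
  refine ContinuousLinearMap.opNorm_le_bound _ (by positivity) fun x => ?_
  obtain ⟨y, hy⟩ : ∃ y, y = (T ^ n) x := ⟨_, rfl⟩
  have s1 : (1 + (n : ℝ)) * ‖y‖ ^ 2 ≤
      ∑ k ∈ range (n + 1), ‖((star T) ^ (n - k)) y‖ * ‖(T ^ k) x‖ := by
    have h3 : ∑ _k ∈ range (n + 1), ‖y‖ ^ 2 ≤
        ∑ k ∈ range (n + 1), ‖((star T) ^ (n - k)) y‖ * ‖(T ^ k) x‖ := by
      refine sum_le_sum fun k hk => ?_
      rw [hy]
      exact key_CMB T x n k (Nat.lt_succ_iff.1 (mem_range.1 hk))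
    rw [sum_const, card_range, nsmul_eq_mul, Nat.cast_add, Nat.cast_one,
      add_comm (n : ℝ) 1] at h3
    exact h3
  have s2 := sum_mul_sq_le_sq_mul_sq (range (n + 1)) (fun k => ‖((star T) ^ (n - k)) y‖)
    (fun k => ‖(T ^ k) x‖)
  have s3 : ∑ k ∈ range (n + 1), ‖((star T) ^ (n - k)) y‖ ^ 2 =
      ∑ k ∈ range (n + 1), ‖((star T) ^ k) y‖ ^ 2 := by
    have := sum_range_reflect (fun k => ‖((star T) ^ k) y‖ ^ 2) (n + 1)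
    rw [← this]
    rfl
  have s4 := h1 x (n + 1) (by omega)
  have s5 := h2 y (n + 1) (by omega)
  have en : (((n + 1 : ℕ) : ℝ)) = 1 + (n : ℝ) := by
    push_cast
    ring
  rw [en] at s4 s5
  have s6 : ((1 + (n : ℝ)) * ‖y‖ ^ 2) ^ 2 ≤
      (K * (1 + (n : ℝ)) ^ γ' * (‖x‖ * ‖y‖)) ^ 2 := by
    calc ((1 + (n : ℝ)) * ‖y‖ ^ 2) ^ 2 ≤
        (∑ k ∈ range (n + 1), ‖((star T) ^ (n - k)) y‖ * ‖(T ^ k) x‖) ^ 2 :=
          pow_le_pow_left₀ (by positivity) s1 2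
      _ ≤ _ := s2
      _ = (∑ k ∈ range (n + 1), ‖((star T) ^ k) y‖ ^ 2) *
          ∑ k ∈ range (n + 1), ‖(T ^ k) x‖ ^ 2 := by rw [s3]
      _ ≤ (K * (1 + (n : ℝ)) ^ γ' * ‖y‖ ^ 2) * (K * (1 + (n : ℝ)) ^ γ' * ‖x‖ ^ 2) :=
          mul_le_mul s5 s4 (sum_nonneg fun _ _ => by positivity) (by positivity)
      _ = _ := by ring
  have s7 : (1 + (n : ℝ)) * ‖y‖ ^ 2 ≤ K * (1 + (n : ℝ)) ^ γ' * (‖x‖ * ‖y‖) :=
    (pow_le_pow_iff_left₀ (by positivity) (by positivity) two_ne_zero).1 s6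
  rw [← hy, Real.rpow_sub_one hn.ne']
  rcases eq_or_lt_of_le (norm_nonneg y) with h0 | h0
  · rw [← h0]
    positivity
  · have s8 : (1 + (n : ℝ)) * ‖y‖ ≤ K * (1 + (n : ℝ)) ^ γ' * ‖x‖ := by
      have : ((1 + (n : ℝ)) * ‖y‖) * ‖y‖ ≤ (K * (1 + (n : ℝ)) ^ γ' * ‖x‖) * ‖y‖ := by
        calc ((1 + (n : ℝ)) * ‖y‖) * ‖y‖ = (1 + (n : ℝ)) * ‖y‖ ^ 2 := by ring
          _ ≤ _ := s7
          _ = _ := by ring
      exact le_of_mul_le_mul_right this h0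
    calc ‖y‖ = ((1 + (n : ℝ)) * ‖y‖) / (1 + (n : ℝ)) := by field_simp
      _ ≤ (K * (1 + (n : ℝ)) ^ γ' * ‖x‖) / (1 + (n : ℝ)) :=
          div_le_div_of_nonneg_right s8 hn.le
      _ = K * ((1 + (n : ℝ)) ^ γ' / (1 + (n : ℝ))) * ‖x‖ := by ring

end Pool.Agent.Helper71.KE
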