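import Pool.Agent.Helper57.KE.St2

/-!
# Project KF, module POC: the critical inequality
-/

set_option autoImplicit false

open scoped BigOperators
open Finset

namespace Pool.Agent.Helper71.KE

open Pool.Agent.Helper57.KE Pool.Agent.Helper57.KR Pool.Agent.Helper65.RG

private theorem divb {δ ρ : ℝ} (hδ0 : 0 ≤ δ) (hδ1 : δ ≤ 1) (hρ : |ρ| ≤ 1 / 2) :
    (1 + δ) / (1 + ρ) ≤ (1 + δ) * (1 - ρ + ρ ^ 2) + 4 * |ρ| ^ 3 := by
  have h1 := abs_le.1 hρ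
  have h2 : 0 < 1 + ρ := by linarith
  rw [div_le_iff₀ h2]
  have h3 : 0 ≤ |ρ| ^ 3 := by positivity
  have h4 : -|ρ| ^ 3 ≤ ρ ^ 3 := by
    rw [← abs_pow]
    exact neg_abs_le _
  have h5 : 4 * |ρ| ^ 3 * (1 / 2) ≤ 4 * |ρ| ^ 3 * (1 + ρ) :=
    mul_le_mul_of_nonneg_left (by linarith) (by positivity)
  have h6 : (1 + δ) * (-|ρ| ^ 3) ≤ (1 + δ) * ρ ^ 3 := mul_le_mul_of_nonneg_left h4 (by linarith)
  have h7 : (1 + δ) * |ρ| ^ 3 ≤ 2 * |ρ| ^ 3 := mul_le_mul_of_nonneg_right (by linarith) h3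
  have e : ((1 + δ) * (1 - ρ + ρ ^ 2) + 4 * |ρ| ^ 3) * (1 + ρ) =
      (1 + δ) + (1 + δ) * ρ ^ 3 + 4 * |ρ| ^ 3 * (1 + ρ) := by ring
  rw [e]
  linarith

private theorem rem_bd {s p a α β γ w δ q K D : ℝ} (hs0 : 0 < s) (hp0 : 0 < p) (hp1 : p < 1)
    (ha0 : 0 < a) (ha1 : a < 1) (hα : 0 ≤ α) (hβ : 0 ≤ β) (hγ : 0 ≤ γ)
    (hw0 : 0 < w) (hδ0 : 0 < δ) (hK : K = α + β + γ) (ht : w + δ ≤ 1 / 4)
    (hq : q = α * w ^ 2 + β * δ * w + γ * δ ^ 2)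
    (hD : D = p * (w ^ 2 - w ^ 3) + α * (2 * w ^ 3 - 3 * w ^ 4) + β * δ * (w ^ 2 - w ^ 3)) :
    -((3 + 7 * K + 2 * K ^ 2) * (w + δ) ^ 4) ≤
      (-(3 * α * w ^ 4) - β * δ * w ^ 3) + δ * (D - p * w ^ 2) - q ^ 2 -
        δ * (2 * (p * w - s * δ) * q + q ^ 2) + 2 * a * w * (D - p * w ^ 2) -
        2 * a * w * δ * (q - D) := by
  obtain ⟨t, htt⟩ : ∃ t, t = w + δ := ⟨_, rfl⟩
  rw [← htt]
  rw [← htt] at ht
  have ht0 : 0 < t := by linarith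
  have hwt : w ≤ t := by linarith
  have hδt : δ ≤ t := by linarith
  have hw1 : w ≤ 1 / 4 := by linarith
  have hδ1 : δ ≤ 1 / 4 := by linarith
  have hK0 : 0 ≤ K := by rw [hK]; positivity
  have hw2 : w ^ 2 ≤ t ^ 2 := pow_le_pow_left₀ hw0.le hwt 2
  have hw3 : w ^ 3 ≤ t ^ 3 := pow_le_pow_left₀ hw0.le hwt 3
  have hw4 : w ^ 4 ≤ t ^ 4 := pow_le_pow_left₀ hw0.le hwt 4
  have hd2 : δ ^ 2 ≤ t ^ 2 := pow_le_pow_left₀ hδ0.le hδt 2
  have hwd : δ * w ≤ t ^ 2 := by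
    calc δ * w ≤ t * t := mul_le_mul hδt hwt hw0.le ht0.le
      _ = t ^ 2 := by ring
  have hdw3 : δ * w ^ 3 ≤ t ^ 4 := by
    calc δ * w ^ 3 ≤ t * t ^ 3 := mul_le_mul hδt hw3 (by positivity) ht0.le
      _ = t ^ 4 := by ring
  have hq0 : 0 ≤ q := by rw [hq]; positivity
  have hqK : q ≤ K * t ^ 2 := by
    have e1 := mul_le_mul_of_nonneg_left hw2 hα
    have e2 := mul_le_mul_of_nonneg_left hwd hβ
    have e3 := mul_le_mul_of_nonneg_left hd2 hγ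
    rw [hq, hK]
    calc α * w ^ 2 + β * δ * w + γ * δ ^ 2 = α * w ^ 2 + β * (δ * w) + γ * δ ^ 2 := by ring
      _ ≤ α * t ^ 2 + β * t ^ 2 + γ * t ^ 2 := by linarith
      _ = _ := by ring
  have hq2 : q ^ 2 ≤ K ^ 2 * t ^ 4 := by
    calc q ^ 2 ≤ (K * t ^ 2) ^ 2 := pow_le_pow_left₀ hq0 hqK 2
      _ = _ := by ring
  have hdwq : δ * w * q ≤ K * t ^ 4 := by
    calc δ * w * q ≤ t ^ 2 * (K * t ^ 2) := mul_le_mul hwd hqK hq0 (by positivity)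
      _ = _ := by ring
  have hD0 : 0 ≤ D := by
    have e1 : 0 ≤ p * (w ^ 2 * (1 - w)) := by
      have : 0 ≤ 1 - w := by linarith
      positivity
    have e2 : 0 ≤ α * (w ^ 3 * (2 - 3 * w)) := by
      have : 0 ≤ 2 - 3 * w := by linarith
      positivity
    have e3 : 0 ≤ β * δ * (w ^ 2 * (1 - w)) := by
      have : 0 ≤ 1 - w := by linarith
      positivity
    rw [hD]
    linarith
  have hD1 : -(w ^ 3) ≤ D - p * w ^ 2 := by
    have e2 : 0 ≤ α * (w ^ 3 * (2 - 3 * w)) := by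
      have : 0 ≤ 2 - 3 * w := by linarith
      positivity
    have e3 : 0 ≤ β * δ * (w ^ 2 * (1 - w)) := by
      have : 0 ≤ 1 - w := by linarith
      positivity
    have e4 : p * w ^ 3 ≤ w ^ 3 := mul_le_of_le_one_left (by positivity) hp1.le
    have e5 : D - p * w ^ 2 = -(p * w ^ 3) + α * (w ^ 3 * (2 - 3 * w)) +
      β * δ * (w ^ 2 * (1 - w)) := by
      rw [hD]
      ring
    rw [e5]
    linarith
  have r1 : -(3 * α * t ^ 4) - β * t ^ 4 ≤ -(3 * α * w ^ 4) - β * δ * w ^ 3 := by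
    have e1 := mul_le_mul_of_nonneg_left hw4 hα
    have e2 := mul_le_mul_of_nonneg_left hdw3 hβ
    linarith
  have r2 : -(t ^ 4) ≤ δ * (D - p * w ^ 2) := by
    have e1 := mul_le_mul_of_nonneg_left hD1 hδ0.le
    linarith
  have r3 : -(K ^ 2 * t ^ 4) ≤ -(q ^ 2) := by linarith
  have r4 : -(2 * K * t ^ 4 + K ^ 2 * t ^ 4) ≤ -(δ * (2 * (p * w - s * δ) * q + q ^ 2)) := by
    have e1 : (p * w - s * δ) ≤ w := by
      have : p * w ≤ w := mul_le_of_le_one_left hw0.le hp1.le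
      have : 0 ≤ s * δ := by positivity
      linarith
    have e2 : δ * (2 * (p * w - s * δ) * q) ≤ 2 * (δ * w * q) := by
      have := mul_le_mul_of_nonneg_right e1 (show 0 ≤ 2 * δ * q by positivity)
      linarith
    have e3 : δ * q ^ 2 ≤ q ^ 2 := mul_le_of_le_one_left (by positivity) (by linarith)
    linarith
  have r5 : -(2 * t ^ 4) ≤ 2 * a * w * (D - p * w ^ 2) := by
    have e1 := mul_le_mul_of_nonneg_left hD1 (show 0 ≤ 2 * a * w by positivity)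
    have e2 : 2 * a * w * w ^ 3 ≤ 2 * w ^ 4 := by
      have := mul_le_mul_of_nonneg_right ha1.le (show 0 ≤ 2 * w ^ 4 by positivity)
      linarith
    linarith
  have r6 : -(2 * K * t ^ 4) ≤ -(2 * a * w * δ * (q - D)) := by
    have e1 : 0 ≤ 2 * a * w * δ * D := by positivity
    have e2 : 2 * a * w * δ * q ≤ 2 * (δ * w * q) := by
      have := mul_le_mul_of_nonneg_right ha1.le (show 0 ≤ 2 * w * δ * q by positivity)
      linarith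
    linarith
  have r7 : 3 * α * t ^ 4 + β * t ^ 4 ≤ 3 * K * t ^ 4 := by
    have : 0 ≤ (2 * β + 3 * γ) * t ^ 4 := by positivity
    rw [hK]
    linarith
  linarith

private theorem core3 {s p a α β γ w δ ρ ρ' K : ℝ} (hs0 : 0 < s) (hs1 : s < 1) (hp0 : 0 < p)
    (hp1 : p < 1) (ha0 : 0 < a) (ha1 : a < 1) (h1 : p = 1 - 2 * a) (h2 : p * s = a * (1 - s))
    (hα : 0 ≤ α) (hβ : 0 ≤ β) (hγ : 0 ≤ γ) (c1 : 200 ≤ 2 * a * α - p ^ 2)
    (c2 : 200 ≤ 2 * s * α - p * β) (c3 : 200 ≤ 2 * s * β - 2 * (p + a) * γ + 2 * s * (p + a))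
    (c4 : 200 ≤ 2 * s * γ - s ^ 2) (hw0 : 0 < w) (hδ0 : 0 < δ) (hK : K = α + β + γ)
    (ht : w + δ ≤ 1 / 4) (hKt : K * (w + δ) ≤ 1)
    (hK4 : (3 + 7 * K + 2 * K ^ 2) * (w + δ) ≤ 1)
    (hρ : ρ = p * w - s * δ + α * w ^ 2 + β * δ * w + γ * δ ^ 2)
    (hρ' : ρ' ≤ p * (w - w ^ 2 + w ^ 3) - s * δ + α * (w ^ 2 - 2 * w ^ 3 + 3 * w ^ 4) +
      β * δ * (w - w ^ 2 + w ^ 3) + γ * δ ^ 2) :
    |ρ| ≤ 1 / 2 ∧ (1 - s ^ 2) * δ ^ 2 ≤ (1 + δ) ^ 2 - (1 + δ) / (1 + ρ) -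
      (1 + 2 * a * w) * ((1 + δ) * (1 + ρ') - 1) := by
  obtain ⟨q, hq⟩ : ∃ q, q = α * w ^ 2 + β * δ * w + γ * δ ^ 2 := ⟨_, rfl⟩
  obtain ⟨D, hD⟩ : ∃ D, D = p * (w ^ 2 - w ^ 3) + α * (2 * w ^ 3 - 3 * w ^ 4) +
    β * δ * (w ^ 2 - w ^ 3) := ⟨_, rfl⟩
  have hR := rem_bd hs0 hp0 hp1 ha0 ha1 hα hβ hγ hw0 hδ0 hK ht hq hD
  obtain ⟨t, htt⟩ : ∃ t, t = w + δ := ⟨_, rfl⟩
  rw [← htt] at ht hKt hK4 hR
  have ht0 : 0 < t := by linarith
  have hK0 : 0 ≤ K := by rw [hK]; positivity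
  have hq0 : 0 ≤ q := by rw [hq]; positivity
  have hqt : q ≤ t := by
    have e1 : q ≤ K * t ^ 2 := by
      have a1 : w ^ 2 ≤ t ^ 2 := pow_le_pow_left₀ hw0.le (by linarith) 2
      have a2 : δ ^ 2 ≤ t ^ 2 := pow_le_pow_left₀ hδ0.le (by linarith) 2
      have a3 : δ * w ≤ t ^ 2 := by
        calc δ * w ≤ t * t := mul_le_mul (by linarith) (by linarith) hw0.le ht0.le
          _ = t ^ 2 := by ring
      have e1 := mul_le_mul_of_nonneg_left a1 hα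
      have e2 := mul_le_mul_of_nonneg_left a3 hβ
      have e3 := mul_le_mul_of_nonneg_left a2 hγ
      rw [hq, hK]
      calc α * w ^ 2 + β * δ * w + γ * δ ^ 2 = α * w ^ 2 + β * (δ * w) + γ * δ ^ 2 := by ring
        _ ≤ α * t ^ 2 + β * t ^ 2 + γ * t ^ 2 := by linarith
        _ = _ := by ring
    have e2 : K * t ^ 2 = (K * t) * t := by ring
    have e3 : (K * t) * t ≤ 1 * t := mul_le_mul_of_nonneg_right hKt ht0.le
    linarith
  have hρq : ρ = p * w - s * δ + q := by rw [hρ, hq]; ring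
  have hpw : p * w ≤ w := mul_le_of_le_one_left hw0.le hp1.le
  have hsd : s * δ ≤ δ := mul_le_of_le_one_left hδ0.le hs1.le
  have hpw0 : 0 < p * w := by positivity
  have hsd0 : 0 < s * δ := by positivity
  have habs : |ρ| ≤ 2 * t := by
    rw [abs_le]
    constructor <;> rw [hρq] <;> linarith
  have habs2 : |ρ| ≤ 1 / 2 := by linarith
  refine ⟨habs2, ?_⟩
  have h3 := divb hδ0.le (show δ ≤ 1 by linarith) habs2
  have h4 : |ρ| ^ 3 ≤ 8 * t ^ 3 := by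
    calc |ρ| ^ 3 ≤ (2 * t) ^ 3 := pow_le_pow_left₀ (abs_nonneg _) habs 3
      _ = _ := by ring
  obtain ⟨ρu, hρu⟩ : ∃ ρu, ρu = p * (w - w ^ 2 + w ^ 3) - s * δ +
    α * (w ^ 2 - 2 * w ^ 3 + 3 * w ^ 4) + β * δ * (w - w ^ 2 + w ^ 3) + γ * δ ^ 2 := ⟨_, rfl⟩
  rw [← hρu] at hρ'
  have h5 : (1 + 2 * a * w) * ((1 + δ) * (1 + ρ') - 1) ≤
      (1 + 2 * a * w) * ((1 + δ) * (1 + ρu) - 1) := by
    apply mul_le_mul_of_nonneg_left _ (by positivity)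
    have := mul_le_mul_of_nonneg_left hρ' (show 0 ≤ 1 + δ by linarith)
    linarith
  obtain ⟨R, hRR⟩ : ∃ R, R = (-(3 * α * w ^ 4) - β * δ * w ^ 3) + δ * (D - p * w ^ 2) - q ^ 2 -
        δ * (2 * (p * w - s * δ) * q + q ^ 2) + 2 * a * w * (D - p * w ^ 2) -
        2 * a * w * δ * (q - D) := ⟨_, rfl⟩
  rw [← hRR] at hR
  have h6 : (1 + δ) ^ 2 - (1 + δ) * (1 - ρ + ρ ^ 2) -
      (1 + 2 * a * w) * ((1 + δ) * (1 + ρu) - 1) - (1 - s ^ 2) * δ ^ 2 =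
      (2 * a * α - p ^ 2) * w ^ 3 + (2 * s * α - p * β) * (w ^ 2 * δ) +
      (2 * s * β - 2 * (p + a) * γ + 2 * s * (p + a)) * (w * δ ^ 2) +
      (2 * s * γ - s ^ 2) * δ ^ 3 + R := by
    rw [hRR, hρu, hρ, hq, hD]
    subst h1
    linear_combination (2 * δ * w) * h2
  have h7 : 200 * w ^ 3 ≤ (2 * a * α - p ^ 2) * w ^ 3 :=
    mul_le_mul_of_nonneg_right c1 (by positivity)
  have h8 : 200 * (w ^ 2 * δ) ≤ (2 * s * α - p * β) * (w ^ 2 * δ) :=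
    mul_le_mul_of_nonneg_right c2 (by positivity)
  have h9 : 200 * (w * δ ^ 2) ≤ (2 * s * β - 2 * (p + a) * γ + 2 * s * (p + a)) * (w * δ ^ 2) :=
    mul_le_mul_of_nonneg_right c3 (by positivity)
  have h10 : 200 * δ ^ 3 ≤ (2 * s * γ - s ^ 2) * δ ^ 3 :=
    mul_le_mul_of_nonneg_right c4 (by positivity)
  have h11 : (3 + 7 * K + 2 * K ^ 2) * t ^ 4 ≤ t ^ 3 := by
    calc (3 + 7 * K + 2 * K ^ 2) * t ^ 4 = ((3 + 7 * K + 2 * K ^ 2) * t) * t ^ 3 := by ring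
      _ ≤ 1 * t ^ 3 := mul_le_mul_of_nonneg_right hK4 (by positivity)
      _ = t ^ 3 := one_mul _
  have h12 : t ^ 3 = w ^ 3 + 3 * (w ^ 2 * δ) + 3 * (w * δ ^ 2) + δ ^ 3 := by rw [htt]; ring
  have p1 : 0 < w ^ 3 := by positivity
  have p2 : 0 < w ^ 2 * δ := by positivity
  have p3 : 0 < w * δ ^ 2 := by positivity
  have p4 : 0 < δ ^ 3 := by positivity
  linarith

private theorem core4 {s p α β γ w δ ρ K : ℝ} (hs0 : 0 < s) (hs1 : s < 1) (hp0 : 0 < p)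
    (hp1 : p < 1) (hα : 0 ≤ α) (hβ : 0 ≤ β) (hγ : 8 ≤ γ) (hw0 : 0 < w) (hδ0 : 0 < δ)
    (hK : K = α + β + γ) (hδ1 : δ ≤ 1 / 4) (hKδ : K * δ ≤ s / 2) (hwδ : 2 * w ≤ s * δ)
    (hρ : ρ = p * w - s * δ + α * w ^ 2 + β * δ * w + γ * δ ^ 2) :
    (1 - s ^ 2) * δ ^ 2 + s * p * δ * w ≤
      (1 + δ) ^ 2 - (1 + δ) / (1 + ρ) - ((1 + δ) * (1 + ρ) - 1) := by
  obtain ⟨q, hq⟩ : ∃ q, q = α * w ^ 2 + β * δ * w + γ * δ ^ 2 := ⟨_, rfl⟩
  obtain ⟨A, hA⟩ : ∃ A, A = s * δ - p * w := ⟨_, rfl⟩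
  have hpw : p * w ≤ w := mul_le_of_le_one_left hw0.le hp1.le
  have hsd : s * δ ≤ δ := mul_le_of_le_one_left hδ0.le hs1.le
  have hpw0 : 0 < p * w := by positivity
  have hsd0 : 0 < s * δ := by positivity
  have hA1 : s * δ / 2 ≤ A := by linarith
  have hA2 : A ≤ s * δ := by linarith
  have hwδ' : w ≤ δ := by linarith
  have hq1 : γ * δ ^ 2 ≤ q := by
    have : 0 ≤ α * w ^ 2 + β * δ * w := by positivity
    linarith
  have hq2 : q ≤ A := by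
    have e1 : q ≤ K * δ ^ 2 := by
      have a1 : w ^ 2 ≤ δ ^ 2 := pow_le_pow_left₀ hw0.le hwδ' 2
      have a3 : δ * w ≤ δ ^ 2 := by
        calc δ * w ≤ δ * δ := mul_le_mul_of_nonneg_left hwδ' hδ0.le
          _ = δ ^ 2 := by ring
      have e1 := mul_le_mul_of_nonneg_left a1 hα
      have e2 := mul_le_mul_of_nonneg_left a3 hβ
      rw [hq, hK]
      calc α * w ^ 2 + β * δ * w + γ * δ ^ 2 = α * w ^ 2 + β * (δ * w) + γ * δ ^ 2 := by ring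
        _ ≤ α * δ ^ 2 + β * δ ^ 2 + γ * δ ^ 2 := by linarith
        _ = _ := by ring
    have e2 : K * δ ^ 2 = (K * δ) * δ := by ring
    have e3 : (K * δ) * δ ≤ s / 2 * δ := mul_le_mul_of_nonneg_right hKδ hδ0.le
    linarith
  have hρA : ρ = -(A - q) := by rw [hρ, hq, hA]; ring
  have hA0 : 0 < A := by linarith
  have hq0 : 0 ≤ q := le_trans (by positivity) hq1
  have h1 : ρ ^ 2 ≤ A ^ 2 - γ * δ ^ 2 * (s * δ / 2) := by
    have e1 : q * A ≤ q * (2 * A - q) := mul_le_mul_of_nonneg_left (by linarith) hq0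
    have e2 : γ * δ ^ 2 * (s * δ / 2) ≤ q * A :=
      mul_le_mul hq1 hA1 (by positivity) hq0
    have e3 : ρ ^ 2 = A ^ 2 - q * (2 * A - q) := by rw [hρA]; ring
    linarith
  have h2 : A ^ 2 ≤ s ^ 2 * δ ^ 2 - s * p * δ * w := by
    have e1 : (p * w) * (p * w) ≤ (p * w) * (s * δ) :=
      mul_le_mul_of_nonneg_left (by linarith) hpw0.le
    have e2 : A ^ 2 = s ^ 2 * δ ^ 2 - 2 * (s * p * δ * w) + (p * w) * (p * w) := by
      rw [hA]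
      ring
    have e3 : (p * w) * (s * δ) = s * p * δ * w := by ring
    linarith
  have h3 : ρ ^ 2 ≤ s ^ 2 * δ ^ 2 := by
    have e1 : ρ ^ 2 = (A - q) ^ 2 := by rw [hρA]; ring
    have e2 : (A - q) ^ 2 ≤ (s * δ) ^ 2 := pow_le_pow_left₀ (by linarith) (by linarith) 2
    calc ρ ^ 2 = (A - q) ^ 2 := e1
      _ ≤ (s * δ) ^ 2 := e2
      _ = _ := by ring
  have h4 : 1 - δ ≤ 1 + ρ := by rw [hρA]; linarith
  have h5 : 0 < 1 + ρ := by linarith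
  have h6 : (1 + δ) / (1 + ρ) ≤ 1 + 4 * δ := by
    rw [div_le_iff₀ h5]
    have : (1 + 4 * δ) * (1 - δ) ≤ (1 + 4 * δ) * (1 + ρ) :=
      mul_le_mul_of_nonneg_left h4 (by linarith)
    nlinarith
  have h7 : (1 + δ) ^ 2 - (1 + δ) / (1 + ρ) - ((1 + δ) * (1 + ρ) - 1) =
      δ ^ 2 - (1 + δ) / (1 + ρ) * ρ ^ 2 := by
    field_simp
    ring
  rw [h7]
  have h8 : (1 + δ) / (1 + ρ) * ρ ^ 2 ≤ (1 + 4 * δ) * ρ ^ 2 :=
    mul_le_mul_of_nonneg_right h6 (sq_nonneg _)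
  have h9 : 4 * δ * ρ ^ 2 ≤ 4 * δ * (s ^ 2 * δ ^ 2) :=
    mul_le_mul_of_nonneg_left h3 (by positivity)
  have h10 : 4 * δ * (s ^ 2 * δ ^ 2) ≤ γ * δ ^ 2 * (s * δ / 2) := by
    have e1 : 4 * s ≤ γ / 2 := by linarith
    have := mul_le_mul_of_nonneg_right e1 (show 0 ≤ s * δ ^ 3 by positivity)
    calc 4 * δ * (s ^ 2 * δ ^ 2) = 4 * s * (s * δ ^ 3) := by ring
      _ ≤ γ / 2 * (s * δ ^ 3) := this
      _ = _ := by ring
  linarith

/-- Module POC. -/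
theorem hPOC : StPOC := by
  intro c hc
  obtain ⟨s, hs⟩ : ∃ s, s = ss c := ⟨_, rfl⟩
  have hc2 : 0 < c ^ 2 := by positivity
  have hci : 1 / c ^ 2 < 1 := by
    rw [div_lt_one hc2]
    nlinarith
  have hci0 : 0 < 1 / c ^ 2 := by positivity
  have hs0 : 0 < s := by
    rw [hs]
    exact Real.sqrt_pos.2 (by linarith)
  have hss : s ^ 2 = 1 - 1 / c ^ 2 := by
    rw [hs]
    exact Real.sq_sqrt (by linarith)
  have hs1 : s < 1 := by nlinarith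
  obtain ⟨p, hp⟩ : ∃ p, p = pp c := ⟨_, rfl⟩
  have hpe : p = (1 - s) / (1 + s) := by rw [hp, hs]; rfl
  obtain ⟨a, ha⟩ : ∃ a, a = s / (1 + s) := ⟨_, rfl⟩
  have hs1' : 0 < 1 + s := by linarith
  have hp0 : 0 < p := by rw [hpe]; exact div_pos (by linarith) hs1'
  have ha0 : 0 < a := by rw [ha]; positivity
  have ha1 : a < 1 := by
    rw [ha, div_lt_one hs1']
    linarith
  have h1 : p = 1 - 2 * a := by
    rw [hpe, ha]
    field_simp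
    ring
  have hp1 : p < 1 := by linarith
  have h2 : p * s = a * (1 - s) := by
    rw [hpe, ha]
    field_simp
  rw [← hs, ← hp]
  obtain ⟨γ, hγ⟩ : ∃ γ, γ = (200 + s ^ 2) / (2 * s) + 8 := ⟨_, rfl⟩
  have hγ0 : 8 ≤ γ := by
    have : 0 ≤ (200 + s ^ 2) / (2 * s) := by positivity
    linarith
  have hγ0' : 0 ≤ γ := by linarith
  obtain ⟨β, hβ⟩ : ∃ β, β = (200 + 2 * (p + a) * γ) / (2 * s) := ⟨_, rfl⟩
  have hβ0 : 0 ≤ β := by rw [hβ]; positivity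
  obtain ⟨α, hα⟩ : ∃ α, α = (200 + p * β) / (2 * s) + (200 + p ^ 2) / (2 * a) := ⟨_, rfl⟩
  have hα0 : 0 ≤ α := by rw [hα]; positivity
  have c4 : 200 ≤ 2 * s * γ - s ^ 2 := by
    have e : 2 * s * γ = 200 + s ^ 2 + 16 * s := by
      rw [hγ]
      field_simp
      ring
    linarith
  have c3 : 200 ≤ 2 * s * β - 2 * (p + a) * γ + 2 * s * (p + a) := by
    have e : 2 * s * β = 200 + 2 * (p + a) * γ := by
      rw [hβ]
      field_simp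
    have : 0 ≤ 2 * s * (p + a) := by positivity
    linarith
  have c2 : 200 ≤ 2 * s * α - p * β := by
    have e : 2 * s * α = 200 + p * β + 2 * s * ((200 + p ^ 2) / (2 * a)) := by
      rw [hα, mul_add]
      congr 1
      field_simp
    have : 0 ≤ 2 * s * ((200 + p ^ 2) / (2 * a)) := by positivity
    linarith
  have c1 : 200 ≤ 2 * a * α - p ^ 2 := by
    have e : 2 * a * α = 2 * a * ((200 + p * β) / (2 * s)) + (200 + p ^ 2) := by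
      rw [hα, mul_add]
      congr 1
      field_simp
    have : 0 ≤ 2 * a * ((200 + p * β) / (2 * s)) := by positivity
    linarith
  obtain ⟨K, hK⟩ : ∃ K, K = α + β + γ := ⟨_, rfl⟩
  have hK0 : 0 ≤ K := by rw [hK]; positivity
  obtain ⟨K4, hK4⟩ : ∃ K4, K4 = 3 + 7 * K + 2 * K ^ 2 := ⟨_, rfl⟩
  have hK40 : 3 ≤ K4 := by
    have : 0 ≤ 7 * K + 2 * K ^ 2 := by positivity
    linarith
  have hKK4 : K ≤ K4 := by
    have : 0 ≤ 6 * K + 2 * K ^ 2 := by positivity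
    linarith
  obtain ⟨τ, hτ⟩ : ∃ τ, τ = s / (4 * (K4 + 1)) := ⟨_, rfl⟩
  have hτ0 : 0 < τ := by rw [hτ]; positivity
  have hτK : (K4 + 1) * τ = s / 4 := by
    rw [hτ]
    field_simp
  have hτ1 : τ ≤ 1 / 16 := by nlinarith
  obtain ⟨i1, hi1⟩ : ∃ i1 : ℕ, i1 = ⌈2 / τ⌉₊ + 2 := ⟨_, rfl⟩
  have hi1' : 2 / τ ≤ (i1 : ℝ) := by
    rw [hi1]
    push_cast
    have := Nat.le_ceil (2 / τ)
    linarith
  refine ⟨α, β, γ, τ / 2, i1, hα0, hβ0, hγ0', by positivity, by linarith, by omega, ?_⟩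
  intro x δ hx hδ0 hδ1
  have hx0 : 0 < x := by
    have : 0 < 2 / τ := by positivity
    linarith
  obtain ⟨w, hw⟩ : ∃ w, w = 1 / x := ⟨_, rfl⟩
  have hw0 : 0 < w := by rw [hw]; positivity
  have hwτ : w ≤ τ / 2 := by
    rw [hw, div_le_iff₀ hx0]
    have h3 : 2 / τ ≤ x := hi1'.trans hx
    rw [div_le_iff₀ hτ0] at h3
    linarith
  have htτ : w + δ ≤ τ := by linarith
  have ht : w + δ ≤ 1 / 4 := by linarith
  have hKt : K * (w + δ) ≤ s / 4 := by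
    calc K * (w + δ) ≤ K * τ := mul_le_mul_of_nonneg_left htτ hK0
      _ ≤ (K4 + 1) * τ := mul_le_mul_of_nonneg_right (by linarith) hτ0.le
      _ = s / 4 := hτK
  have hK4t : (3 + 7 * K + 2 * K ^ 2) * (w + δ) ≤ 1 := by
    rw [← hK4]
    calc K4 * (w + δ) ≤ K4 * τ := mul_le_mul_of_nonneg_left htτ (by linarith)
      _ ≤ (K4 + 1) * τ := mul_le_mul_of_nonneg_right (by linarith) hτ0.le
      _ = s / 4 := hτK
      _ ≤ 1 := by linarith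
  obtain ⟨ρ, hρ⟩ : ∃ ρ, ρ = p * w - s * δ + α * w ^ 2 + β * δ * w + γ * δ ^ 2 := ⟨_, rfl⟩
  have hrr : rr s p α β γ δ x = 1 + ρ := by
    rw [hρ, hw]
    unfold rr
    field_simp
    ring
  obtain ⟨w', hw'⟩ : ∃ w', w' = 1 / (x + 1) := ⟨_, rfl⟩
  obtain ⟨ρ', hρ'⟩ : ∃ ρ', ρ' = p * w' - s * δ + α * w' ^ 2 + β * δ * w' + γ * δ ^ 2 := ⟨_, rfl⟩
  have hrr' : rr s p α β γ δ (x + 1) = 1 + ρ' := by
    have hx1 : 0 < x + 1 := by linarith
    rw [hρ', hw']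
    unfold rr
    field_simp
    ring
  have hw'0 : 0 < w' := by rw [hw']; positivity
  have hww : w' * (1 + w) = w := by
    rw [hw', hw]
    field_simp
  have hw1 : w' ≤ w - w ^ 2 + w ^ 3 := by
    have e1 : w' * (1 + w) ≤ (w - w ^ 2 + w ^ 3) * (1 + w) := by
      rw [hww]
      have : 0 < w ^ 4 := by positivity
      nlinarith
    exact le_of_mul_le_mul_right e1 (by linarith)
  have hw2 : w' ^ 2 ≤ w ^ 2 - 2 * w ^ 3 + 3 * w ^ 4 := by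
    have e1 : w' ^ 2 * (1 + w) ^ 2 ≤ (w ^ 2 - 2 * w ^ 3 + 3 * w ^ 4) * (1 + w) ^ 2 := by
      have e2 : w' ^ 2 * (1 + w) ^ 2 = w ^ 2 := by
        rw [← mul_pow, hww]
      rw [e2]
      have e3 : (w ^ 2 - 2 * w ^ 3 + 3 * w ^ 4) * (1 + w) ^ 2 = w ^ 2 + 4 * w ^ 5 + 3 * w ^ 6 := by
        ring
      rw [e3]
      have : 0 < 4 * w ^ 5 + 3 * w ^ 6 := by positivity
      linarith
    exact le_of_mul_le_mul_right e1 (by positivity)
  have hρu : ρ' ≤ p * (w - w ^ 2 + w ^ 3) - s * δ + α * (w ^ 2 - 2 * w ^ 3 + 3 * w ^ 4) +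
      β * δ * (w - w ^ 2 + w ^ 3) + γ * δ ^ 2 := by
    have e1 := mul_le_mul_of_nonneg_left hw1 hp0.le
    have e2 := mul_le_mul_of_nonneg_left hw2 hα0
    have e3 := mul_le_mul_of_nonneg_left hw1 (show 0 ≤ β * δ by positivity)
    rw [hρ']
    linarith
  obtain ⟨hab, h3⟩ := core3 hs0 hs1 hp0 hp1 ha0 ha1 h1 h2 hα0 hβ0 hγ0' c1 c2 c3 c4 hw0 hδ0 hK ht
    (hKt.trans (by linarith)) hK4t hρ hρu
  have hc' : δ ^ 2 / c ^ 2 = (1 - s ^ 2) * δ ^ 2 := by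
    rw [hss]
    ring
  have hab' := abs_le.1 hab
  rw [hrr, hrr', hc']
  refine ⟨by linarith, ?_, ?_, ?_⟩
  · have e1 : -(s * δ) + γ * δ ^ 2 ≤ ρ := by
      have : 0 ≤ p * w + α * w ^ 2 + β * δ * w := by positivity
      linarith
    have e2 : (1 + δ) * (1 + (-(s * δ) + γ * δ ^ 2)) ≤ (1 + δ) * (1 + ρ) :=
      mul_le_mul_of_nonneg_left (by linarith) (by linarith)
    have e3 : 0 ≤ (γ - s) * δ ^ 2 + γ * δ ^ 3 := by
      have : 0 ≤ γ - s := by linarith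
      positivity
    have e4 : (1 + δ) * (1 + (-(s * δ) + γ * δ ^ 2)) =
        1 + (1 - s) * δ + ((γ - s) * δ ^ 2 + γ * δ ^ 3) := by ring
    linarith
  · have e1 : (1 - p) / x = 2 * a * w := by
      rw [hw, h1]
      ring
    rw [e1]
    exact h3
  · intro h4
    have e1 : 2 * w ≤ s * δ := by
      have : 2 / (s * x) = 2 * w / s := by
        rw [hw]
        field_simp
      rw [this, div_le_iff₀ hs0] at h4
      linarith
    have e2 : K * δ ≤ s / 2 := by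
      have : K * δ ≤ K * (w + δ) := mul_le_mul_of_nonneg_left (by linarith) hK0
      linarith
    have h5 := core4 hs0 hs1 hp0 hp1 hα0 hβ0 hγ0 hw0 hδ0 hK (by linarith) e2 e1 hρ
    have e3 : s * p * δ / x = s * p * δ * w := by
      rw [hw]
      ring
    rw [e3]
    exact h5

end Pool.Agent.Helper71.KE
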